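import Pool.Agent.Lib_helper6.HDH.Basic
import Pool.Agent.Lib_helper74.PHS.Lev

/-!
# Translation of `Lev`, `Sip` on lists to `LevP`, `Full`
-/

set_option autoImplicit false

open Finset

namespace Pool.Agent.HDH

open Pool.Agent.PHS

/-- circuits -/
theorem lev_levP {ι : Type} {t : ℕ} : ∀ (k : ℕ) (F : (ι → Bool) → Bool), Lev t k F →
    LevP (2 ^ t) t k (fun v => F v = true) := by
  intro k
  induction k with
  | zero =>
    intro F h x
    obtain ⟨T, hT, hT'⟩ := h x
    exact ⟨T, hT, fun x' hx' => by
      show F x' = true ↔ F x = true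
      rw [hT' x' hx']⟩
  | succ k ih =>
    rintro F ⟨s, g, hs, hg, h⟩
    exact ⟨s, fun i v => g i v = true, hs, fun i => ih _ (hg i), h⟩

/-- alternating trees over predicates -/
def SipP {A : Type} : ℕ → (List A → Prop) → Prop
  | 0, v => v []
  | K + 1, v => ∃ a : A, ¬ SipP K (fun l => v (a :: l))

theorem sip_sipP {A : Type} : ∀ (K : ℕ) (v : List A → Bool),
    Sip K v ↔ SipP K (fun l => v l = true) := by
  intro K
  induction K with
  | zero => intro v; exact Iff.rfl
  | succ K ih =>
    intro v
    show (∃ a : A, ¬ Sip K (fun l => v (a :: l))) ↔ ∃ a : A, ¬ SipP K (fun l => v (a :: l) = true)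
    exact exists_congr fun a => not_congr (ih _)

theorem sipP_congr {A : Type} : ∀ (K : ℕ) (v w : List A → Prop),
    (∀ l : List A, l.length = K → (v l ↔ w l)) → (SipP K v ↔ SipP K w) := by
  intro K
  induction K with
  | zero => intro v w h; exact h [] rfl
  | succ K ih =>
    intro v w h
    exact exists_congr fun a => not_congr (ih _ _ fun l hl => h (a :: l) (by simp [hl]))

theorem sipP_bottom {A : Type} : ∀ (K : ℕ) (v : List A → Prop),
    SipP (K + 1) v ↔ SipP K (fun l => ∃ a, ¬ v (l ++ [a])) := by
  intro K
  induction K with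
  | zero => intro v; exact Iff.rfl
  | succ K ih =>
    intro v
    show (∃ a : A, ¬ SipP (K + 1) (fun l => v (a :: l))) ↔
      ∃ a : A, ¬ SipP K (fun l => ∃ b, ¬ v (a :: l ++ [b]))
    refine exists_congr fun a => not_congr ?_
    rw [ih]
    rfl

section idx

variable {A G : Type} (π : A → G × G) (a₀ : A)

/-- the index of a reversed list -/
def ridx : (K : ℕ) → List A → Ix G K
  | 0, _ => ()
  | K + 1, [] => (ridx K [], π a₀)
  | K + 1, a :: r => (ridx K r, π a)

theorem ridx_append (K : ℕ) (l : List A) (a : A) :
    ridx π a₀ (K + 1) (l ++ [a]).reverse = (ridx π a₀ K l.reverse, π a) := by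
  rw [List.reverse_append]
  rfl

/-- the index of the variable `l` -/
def ind (k : ℕ) (l : List A) : Ix G k × G :=
  match l.reverse with
  | [] => (ridx π a₀ k [], (π a₀).1)
  | a :: r => (ridx π a₀ k r, (π a).1)

theorem ind_append (k : ℕ) (l : List A) (a : A) :
    ind π a₀ k (l ++ [a]) = (ridx π a₀ k l.reverse, (π a).1) := by
  unfold ind
  rw [List.reverse_append]
  rfl

theorem sipP_alt (hπ : Function.Surjective π) : ∀ (K : ℕ) (v : List A → Prop) (φ : Ix G K → Prop),
    (∀ l : List A, l.length = K →
      (v l ↔ if K % 2 = 1 then ¬ φ (ridx π a₀ K l.reverse) else φ (ridx π a₀ K l.reverse))) →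
    (SipP K v ↔ Alt G K (decide (K % 2 = 1)) φ) := by
  intro K
  induction K with
  | zero =>
    intro v φ h
    have := h [] rfl
    show v [] ↔ φ ()
    simp only [Nat.zero_mod, zero_ne_one, if_false] at this
    exact this
  | succ K ih =>
    intro v φ h
    rw [sipP_bottom]
    rcases Nat.mod_two_eq_zero_or_one K with hK | hK
    · -- K even
      have hK1 : (K + 1) % 2 = 1 := by omega
      simp only [hK1, decide_true]
      show _ ↔ Alt G K false (fun i => ∃ p : G × G, φ (i, p))
      have := ih (fun l => ∃ a, ¬ v (l ++ [a])) (fun i => ∃ p : G × G, φ (i, p)) (by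
        intro l hl
        simp only [hK, zero_ne_one, if_false]
        constructor
        · rintro ⟨a, ha⟩
          have h1 := h (l ++ [a]) (by simp [hl])
          rw [if_pos hK1, ridx_append] at h1
          refine ⟨π a, ?_⟩
          by_contra hc
          exact ha (h1.2 hc)
        · rintro ⟨p, hp⟩
          obtain ⟨a, rfl⟩ := hπ p
          refine ⟨a, fun hv => ?_⟩
          have h1 := h (l ++ [a]) (by simp [hl])
          rw [if_pos hK1, ridx_append] at h1
          exact h1.1 hv hp)
      simpa [hK] using this
    · -- K odd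
      have hK1 : ¬ (K + 1) % 2 = 1 := by omega
      simp only [hK1, decide_false]
      show _ ↔ Alt G K true (fun i => ∀ p : G × G, φ (i, p))
      have := ih (fun l => ∃ a, ¬ v (l ++ [a])) (fun i => ∀ p : G × G, φ (i, p)) (by
        intro l hl
        simp only [hK, if_true]
        constructor
        · rintro ⟨a, ha⟩ hall
          have h1 := h (l ++ [a]) (by simp [hl])
          rw [if_neg hK1, ridx_append] at h1
          exact ha (h1.2 (hall _))
        · intro hn
          push Not at hn
          obtain ⟨p, hp⟩ := hn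
          obtain ⟨a, rfl⟩ := hπ p
          refine ⟨a, fun hv => ?_⟩
          have h1 := h (l ++ [a]) (by simp [hl])
          rw [if_neg hK1, ridx_append] at h1
          exact hp (h1.1 hv))
      simpa [hK] using this

/-- the substitution -/
def theta (k : ℕ) (x : Ix G k × G → Bool) : List A → Bool :=
  fun l => xor (decide (k % 2 = 0)) (x (ind π a₀ k l))

theorem theta_proj (k : ℕ) : IsProj (theta π a₀ k) :=
  fun l => Or.inr ⟨ind π a₀ k l, decide (k % 2 = 0), fun _ => rfl⟩

theorem sip_full (hπ : Function.Surjective π) (k : ℕ) (x : Ix G k × G → Bool) :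
    Sip (k + 1) (theta π a₀ k x) ↔ Full G k (decide (k % 2 = 0)) x := by
  rw [sip_sipP, sipP_bottom]
  unfold Full
  rcases Nat.mod_two_eq_zero_or_one k with hk | hk
  · have := sipP_alt π a₀ hπ k (fun l => ∃ a, ¬ (theta π a₀ k x (l ++ [a]) = true))
      (fun i => ∃ g : G, x (i, g) = true) (by
        intro l hl
        simp only [hk, zero_ne_one, if_false, theta, ind_append, decide_true, Bool.true_bne,
          Bool.not_eq_eq_eq_not, Bool.not_true, Bool.not_eq_false]
        constructor
        · rintro ⟨a, ha⟩
          exact ⟨(π a).1, ha⟩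
        · rintro ⟨g, hg⟩
          obtain ⟨a, ha⟩ := hπ (g, g)
          exact ⟨a, by rw [ha]; exact hg⟩)
    simpa [hk] using this
  · have := sipP_alt π a₀ hπ k (fun l => ∃ a, ¬ (theta π a₀ k x (l ++ [a]) = true))
      (fun i => ∀ g : G, x (i, g) = true) (by
        intro l hl
        simp only [hk, if_true, theta, ind_append, one_ne_zero, decide_false, Bool.false_xor]
        constructor
        · rintro ⟨a, ha⟩ hall
          exact ha (hall _)
        · intro hn
          push Not at hn
          obtain ⟨g, hg⟩ := hn
          obtain ⟨a, ha⟩ := hπ (g, g)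
          exact ⟨a, by rw [ha]; exact hg⟩)
    simpa [hk] using this

end idx

/-- translation -/
theorem tr_main {A G : Type} [Fintype A] [DecidableEq A] [Fintype G] (hA : Nonempty G)
    (hcard : Fintype.card G * Fintype.card G ≤ Fintype.card A) {t k : ℕ}
    {F : (List A → Bool) → Bool} (hF : Lev t k F) (h : ∀ v, F v = true ↔ Sip (k + 1) v) :
    LevP (2 ^ t) t k (Full G k (decide (k % 2 = 0))) := by
  classical
  obtain ⟨g₀⟩ := hA
  have h1 : Fintype.card (G × G) ≤ Fintype.card A := by rw [Fintype.card_prod]; exact hcard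
  obtain ⟨e⟩ := Function.Embedding.nonempty_of_card_le h1
  have : Nonempty (G × G) := ⟨(g₀, g₀)⟩
  set π : A → G × G := Function.invFun e with hπd
  have hπ : Function.Surjective π := Function.invFun_surjective e.injective
  set a₀ : A := e (g₀, g₀)
  refine (LevP.proj (theta π a₀ k) (theta_proj π a₀ k) (lev_levP k F hF)).congr ?_
  intro x
  rw [h, sip_full π a₀ hπ]

end Pool.Agent.HDH
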