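import Pool.Agent.Lib_helper6.HDH.Prob
import Pool.Agent.Lib_helper37.AH.Sw

/-!
# The switching lemma for block restrictions (concrete form)
-/

set_option autoImplicit false

open Finset Function

namespace Pool.Agent.HDH

/-- The value of the variable `j` of a block with configuration `c` and block value `y`. -/
def val {J : Type} (c : Cf J) (y : Bool) (j : J) : Bool := !(c.2 j) || (c.1 && y)

set_option linter.unusedSectionVars false
set_option linter.unusedVariables false

section sums

variable {J : Type} [Fintype J] [DecidableEq J]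

theorem sw_erase_one {q : ℝ} (hq0 : 0 < q) (hq1 : q < 1) (g : (J → Bool) → ℝ)
    (hg : ∀ A, 0 ≤ g A) (j : J) :
    ∑ A : J → Bool, (∏ i, pv q (A i)) * g (update A j false)
      ≤ 1 / (1 - q) * ∑ A : J → Bool, (∏ i, pv q (A i)) * g A := by
  classical
  have h1q : 0 < 1 - q := by linarith
  have hpv : ∀ b, 0 ≤ pv q b := fun b => pv_nonneg hq0.le hq1.le b
  have key : ∀ (f : (J → Bool) → ℝ), ∑ A : J → Bool, f A
      = ∑ p : Bool × ({i // i ≠ j} → Bool), f ((Equiv.funSplitAt j Bool).symm p) :=
    fun f => (Equiv.sum_comp (Equiv.funSplitAt j Bool).symm f).symm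
  have hprod : ∀ p : Bool × ({i // i ≠ j} → Bool),
      ∏ i, pv q ((Equiv.funSplitAt j Bool).symm p i) = pv q p.1 * ∏ i, pv q (p.2 i) := by
    intro p
    rw [Fintype.prod_eq_mul_prod_subtype_ne _ j]
    congr 1
    · simp [Equiv.funSplitAt, Equiv.piSplitAt]
    · refine Finset.prod_congr rfl fun i _ => ?_
      have : (i : J) ≠ j := i.2
      simp [Equiv.funSplitAt, Equiv.piSplitAt, this]
  have hupd : ∀ (p : Bool × ({i // i ≠ j} → Bool)) (o : Bool),
      update ((Equiv.funSplitAt j Bool).symm p) j o = (Equiv.funSplitAt j Bool).symm (o, p.2) := by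
    intro p o
    ext i
    by_cases hi : i = j
    · subst hi; simp [Equiv.funSplitAt, Equiv.piSplitAt]
    · simp [Equiv.funSplitAt, Equiv.piSplitAt, hi]
  have hL : ∑ A : J → Bool, (∏ i, pv q (A i)) * g (update A j false)
      = ∑ r : ({i // i ≠ j} → Bool), (∏ i, pv q (r i)) *
          g ((Equiv.funSplitAt j Bool).symm (false, r)) := by
    rw [key, Fintype.sum_prod_type, Finset.sum_comm]
    refine Finset.sum_congr rfl fun r _ => ?_
    simp only [hprod, hupd]
    rw [Fintype.sum_bool]
    have := pv_sum' q
    rw [← add_mul, ← add_mul, this, one_mul]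
  have hR : ∑ A : J → Bool, (∏ i, pv q (A i)) * g A
      = ∑ r : ({i // i ≠ j} → Bool), (pv q true * (∏ i, pv q (r i)) *
          g ((Equiv.funSplitAt j Bool).symm (true, r)) +
          pv q false * (∏ i, pv q (r i)) * g ((Equiv.funSplitAt j Bool).symm (false, r))) := by
    rw [key, Fintype.sum_prod_type, Finset.sum_comm]
    refine Finset.sum_congr rfl fun r _ => ?_
    simp only [hprod]
    rw [Fintype.sum_bool]
  rw [hL, hR, Finset.mul_sum]
  refine Finset.sum_le_sum fun r _ => ?_
  have hpr : 0 ≤ ∏ i, pv q (r i) := Finset.prod_nonneg fun i _ => hpv _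
  have e : pv q false = 1 - q := by simp [pv]
  have ht : 0 ≤ pv q true * (∏ i, pv q (r i)) * g ((Equiv.funSplitAt j Bool).symm (true, r)) :=
    mul_nonneg (mul_nonneg (hpv _) hpr) (hg _)
  rw [e]
  rw [one_div, mul_add]
  have e2 : (1 - q)⁻¹ * ((1 - q) * (∏ i, pv q (r i)) *
      g ((Equiv.funSplitAt j Bool).symm (false, r)))
      = (∏ i, pv q (r i)) * g ((Equiv.funSplitAt j Bool).symm (false, r)) := by
    field_simp
  rw [e2]
  have := mul_nonneg (inv_nonneg.2 h1q.le) ht
  linarith

theorem sw_erase {q : ℝ} (hq0 : 0 < q) (hq1 : q < 1) (P : Finset J) :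
    ∀ (g : (J → Bool) → ℝ), (∀ A, 0 ≤ g A) →
    ∑ A : J → Bool, (∏ i, pv q (A i)) * g (fun j => A j && !decide (j ∈ P))
      ≤ (1 / (1 - q)) ^ P.card * ∑ A : J → Bool, (∏ i, pv q (A i)) * g A := by
  classical
  have h1q : 0 < 1 - q := by linarith
  induction P using Finset.induction_on with
  | empty =>
    intro g hg
    simp
  | insert a P ha ih =>
    intro g hg
    have h1 := sw_erase_one hq0 hq1 (fun A => g (fun j => A j && !decide (j ∈ P)))
      (fun A => hg _) a
    have h2 := ih g hg
    have e : ∀ A : J → Bool, (fun j => A j && !decide (j ∈ insert a P))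
        = fun j => (update A a false) j && !decide (j ∈ P) := by
      intro A
      funext j
      by_cases hj : j = a
      · subst hj; simp
      · simp [hj, Finset.mem_insert]
    calc ∑ A : J → Bool, (∏ i, pv q (A i)) * g (fun j => A j && !decide (j ∈ insert a P))
        = ∑ A : J → Bool, (∏ i, pv q (A i)) *
            (fun A' => g (fun j => A' j && !decide (j ∈ P))) (update A a false) := by
          refine Finset.sum_congr rfl fun A _ => ?_
          rw [e A]
      _ ≤ 1 / (1 - q) * ∑ A : J → Bool, (∏ i, pv q (A i)) *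
            g (fun j => A j && !decide (j ∈ P)) := h1
      _ ≤ 1 / (1 - q) * ((1 / (1 - q)) ^ P.card *
            ∑ A : J → Bool, (∏ i, pv q (A i)) * g A) :=
          mul_le_mul_of_nonneg_left h2 (by positivity)
      _ = _ := by
          rw [Finset.card_insert_of_notMem ha, pow_succ]; ring

end sums

section inst

variable {I J : Type} [Fintype I] [DecidableEq I] [Fintype J] [DecidableEq J]

/-- unfalsified at the block `i` -/
def swUn (π : List ((I × J) × Bool)) (i : I) (o : Cf J) : Prop :=
  ∀ j b, ((i, j), b) ∈ π → (o.2 j = true → (o.1 = true ∨ b = false)) ∧ (o.2 j = false → b = true)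

/-- alive and starred -/
def swSt (π : List ((I × J) × Bool)) (i : I) (o : Cf J) : Prop :=
  o.1 = true ∧ ∃ j b, ((i, j), b) ∈ π ∧ o.2 j = true

/-- the refinement relation -/
def swR (o o' : Cf J) : Prop :=
  o = o' ∨ (o.1 = true ∧ o'.1 = false ∧ ∀ j, o'.2 j = true → o.2 j = true)

/-- positive variables in block `i` -/
def swPos (π : List ((I × J) × Bool)) (i : I) : Finset J :=
  univ.filter (fun j => ((i, j), true) ∈ π)

/-- the transfer -/
def swPhi (π : List ((I × J) × Bool)) (i : I) (o : Cf J) : Cf J :=
  (false, fun j => o.2 j && !decide (j ∈ swPos π i))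

/-- restricted function -/
def swF (F : List (List ((I × J) × Bool))) (σ : I → Cf J) (y : I → Bool) : Prop :=
  evF F (fun v => val (σ v.1) (y v.1) v.2)

/-- bad restrictions -/
def swBad (F : List (List ((I × J) × Bool))) : ℕ → (I → Cf J) → Prop
  | 0, _ => True
  | u + 1, σ => ¬ DT u (swF F σ)

theorem swPos_card (π : List ((I × J) × Bool)) (i : I) : (swPos π i).card ≤ π.length := by
  have h : (swPos π i).card ≤ π.toFinset.card := by
    refine Finset.card_le_card_of_injOn (fun j => ((i, j), true)) ?_ ?_
    · intro j hj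
      simp only [swPos, Finset.coe_filter, Finset.mem_univ, true_and, Set.mem_ofPred_eq] at hj
      simpa using hj
    · intro j _ j' _ h
      simp only [Prod.mk.injEq, true_and, and_true] at h
      exact h
  exact h.trans π.toFinset_card_le

theorem swUn_phi {π : List ((I × J) × Bool)} (hc : Cons π) {i : I} {o : Cf J}
    (hun : swUn π i o) : swUn π i (swPhi π i o) := by
  intro j b hj
  simp only [swPhi, Bool.and_eq_true, Bool.not_eq_true', decide_eq_false_iff_not, swPos,
    Finset.mem_filter, Finset.mem_univ, true_and, Bool.and_eq_false_iff, Bool.not_eq_false',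
    decide_eq_true_eq]
  constructor
  · rintro ⟨_, h2⟩
    right
    cases b with
    | false => rfl
    | true => exact absurd hj h2
  · rintro (h1 | h1)
    · exact (hun j b hj).2 h1
    · cases b with
      | true => rfl
      | false => exact absurd ⟨h1, hj⟩ (hc (i, j))

theorem sw_wphi {q : ℝ} (hq0 : 0 < q) (hq1 : q < 1) {π : List ((I × J) × Bool)} (hc : Cons π)
    {t : ℕ} (hπ : π.length ≤ t) (i : I) (h : Cf J → ℝ) (hh : ∀ o, 0 ≤ h o) :
    (∑ o : Cf J, open Classical in (if swUn π i o ∧ swSt π i o then
        pc q o * h (swPhi π i o) else 0))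
      ≤ (q / (1 - q) * (1 / (1 - q)) ^ t) *
        ∑ o : Cf J, open Classical in (if swUn π i o then pc q o * h o else 0) := by
  classical
  have h1q : 0 < 1 - q := by linarith
  have hpv : ∀ b, 0 ≤ pv q b := fun b => pv_nonneg hq0.le hq1.le b
  have hpr : ∀ A : J → Bool, 0 ≤ ∏ j, pv q (A j) := fun A => Finset.prod_nonneg fun j _ => hpv _
  set g : (J → Bool) → ℝ := fun B => if swUn π i (false, B) then h (false, B) else 0 with hg
  have hg0 : ∀ A, 0 ≤ g A := by
    intro A
    simp only [hg]
    split_ifs
    · exact hh _
    · exact le_rfl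
  have et : pv q true = q := by simp [pv]
  have ef : pv q false = 1 - q := by simp [pv]
  -- left
  have hL : (∑ o : Cf J, (if swUn π i o ∧ swSt π i o then pc q o * h (swPhi π i o) else 0))
      ≤ q * ∑ A : J → Bool, (∏ j, pv q (A j)) * g (fun j => A j && !decide (j ∈ swPos π i)) := by
    rw [Fintype.sum_prod_type, Fintype.sum_bool]
    have hz : ∑ A : J → Bool, (if swUn π i (false, A) ∧ swSt π i (false, A) then
        pc q ((false, A) : Cf J) * h (swPhi π i (false, A)) else 0) = 0 := by
      refine Finset.sum_eq_zero fun A _ => ?_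
      rw [if_neg]
      rintro ⟨_, h2⟩
      exact absurd h2.1 (by simp)
    rw [hz, add_zero, Finset.mul_sum]
    refine Finset.sum_le_sum fun A _ => ?_
    by_cases hu : swUn π i (true, A)
    · have h3 := swUn_phi hc hu
      have h4 : g (fun j => A j && !decide (j ∈ swPos π i)) = h (swPhi π i (true, A)) := by
        simp only [hg]
        rw [if_pos]
        · rfl
        · exact h3
      rw [h4]
      have h5 : 0 ≤ q * ((∏ j, pv q (A j)) * h (swPhi π i (true, A))) :=
        mul_nonneg hq0.le (mul_nonneg (hpr A) (hh _))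
      split_ifs
      · simp only [pc, et]
        rw [mul_assoc]
      · exact h5
    · rw [if_neg (fun hc => hu hc.1)]
      exact mul_nonneg hq0.le (mul_nonneg (hpr A) (hg0 _))
  -- right
  have hR : (1 - q) * ∑ A : J → Bool, (∏ j, pv q (A j)) * g A
      ≤ ∑ o : Cf J, (if swUn π i o then pc q o * h o else 0) := by
    rw [Fintype.sum_prod_type, Fintype.sum_bool]
    have h1 : 0 ≤ ∑ A : J → Bool, (if swUn π i (true, A) then
        pc q ((true, A) : Cf J) * h (true, A) else 0) := by
      refine Finset.sum_nonneg fun A _ => ?_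
      split_ifs
      · exact mul_nonneg (pc_nonneg hq0.le hq1.le _) (hh _)
      · exact le_rfl
    have h2 : (1 - q) * ∑ A : J → Bool, (∏ j, pv q (A j)) * g A
        = ∑ A : J → Bool, (if swUn π i (false, A) then
        pc q ((false, A) : Cf J) * h (false, A) else 0) := by
      rw [Finset.mul_sum]
      refine Finset.sum_congr rfl fun A _ => ?_
      simp only [hg]
      split_ifs
      · simp only [pc, ef]
        ring
      · ring
    rw [h2]
    linarith
  have hE := sw_erase hq0 hq1 (swPos π i) g hg0
  have hcard : (swPos π i).card ≤ t := (swPos_card π i).trans hπ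
  have h1 : (1 : ℝ) ≤ 1 / (1 - q) := by
    rw [le_div_iff₀ h1q]; linarith
  have hpow : (1 / (1 - q)) ^ (swPos π i).card ≤ (1 / (1 - q)) ^ t :=
    pow_le_pow_right₀ h1 hcard
  have hS : 0 ≤ ∑ A : J → Bool, (∏ j, pv q (A j)) * g A :=
    Finset.sum_nonneg fun A _ => mul_nonneg (hpr A) (hg0 A)
  calc (∑ o : Cf J, (if swUn π i o ∧ swSt π i o then pc q o * h (swPhi π i o) else 0))
      ≤ q * ∑ A : J → Bool, (∏ j, pv q (A j)) * g (fun j => A j && !decide (j ∈ swPos π i)) := hL
    _ ≤ q * ((1 / (1 - q)) ^ (swPos π i).card * ∑ A : J → Bool, (∏ j, pv q (A j)) * g A) :=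
        mul_le_mul_of_nonneg_left hE hq0.le
    _ ≤ q * ((1 / (1 - q)) ^ t * ∑ A : J → Bool, (∏ j, pv q (A j)) * g A) := by
        refine mul_le_mul_of_nonneg_left ?_ hq0.le
        exact mul_le_mul_of_nonneg_right hpow hS
    _ = (q / (1 - q) * (1 / (1 - q)) ^ t) *
          ((1 - q) * ∑ A : J → Bool, (∏ j, pv q (A j)) * g A) := by
        field_simp
    _ ≤ _ := mul_le_mul_of_nonneg_left hR (by positivity)

/-- the data for the abstract switching lemma -/
noncomputable def swData (q : ℝ) (hq0 : 0 < q) (hq1 : q < 1) (t : ℕ)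
    (F : List (List ((I × J) × Bool))) (hF : ∀ π ∈ F, π.length ≤ t ∧ Cons π) :
    AH.SwData I (Cf J) (List ((I × J) × Bool)) where
  w := pc q
  live := fun o => o.1 = true
  ans := fun o a => (false, if a = true then (fun _ => false) else o.2)
  R := swR
  un := swUn
  st := swSt
  bl := fun π => (π.map (fun l => l.1.1)).dedup
  φ := swPhi
  c := q / (1 - q) * (1 / (1 - q)) ^ t
  W := t
  L := F
  bad := swBad F
  w_nonneg := fun o => pc_nonneg hq0.le hq1.le o
  w_sum := pc_sum q
  c_nonneg := by
    have h1q : 0 < 1 - q := by linarith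
    positivity
  bl_nodup := fun π _ => List.nodup_dedup _
  bl_len := fun π hπ => by
    refine ((List.dedup_sublist _).length_le).trans ?_
    rw [List.length_map]
    exact (hF π hπ).1
  un_out := fun π _ i hi o j b hj => by
    exfalso
    apply hi
    rw [List.mem_dedup, List.mem_map]
    exact ⟨((i, j), b), hj, rfl⟩
  st_out := fun π _ i hi o h => by
    obtain ⟨_, j, b, hj, _⟩ := h
    apply hi
    rw [List.mem_dedup, List.mem_map]
    exact ⟨((i, j), b), hj, rfl⟩
  st_live := fun π _ i o h => h.1
  ans_dead := fun o a h => by simp at h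
  R_un := fun π _ i o o' hun hst hR => by
    rcases hR with rfl | ⟨h1, h2, h3⟩
    · exact ⟨hun, hst⟩
    · have hno : ∀ j b, ((i, j), b) ∈ π → o.2 j = false := by
        intro j b hj
        by_contra hcon
        exact hst ⟨h1, j, b, hj, by simpa using hcon⟩
      have hno' : ∀ j b, ((i, j), b) ∈ π → o'.2 j = false := by
        intro j b hj
        by_contra hcon
        have := h3 j (by simpa using hcon)
        rw [hno j b hj] at this
        exact absurd this (by simp)
      refine ⟨fun j b hj => ⟨fun h => ?_, fun _ => (hun j b hj).2 (hno j b hj)⟩, fun h => ?_⟩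
      · rw [hno' j b hj] at h
        exact absurd h (by simp)
      · have h4 := h.1
        rw [h2] at h4
        exact absurd h4 (by simp)
  R_nun := fun π _ i o o' hnun hR hun' => by
    rcases hR with rfl | ⟨h1, h2, h3⟩
    · exact hnun hun'
    · apply hnun
      intro j b hj
      refine ⟨fun _ => Or.inl h1, fun h => ?_⟩
      refine (hun' j b hj).2 ?_
      by_contra hcon
      have := h3 j (by simpa using hcon)
      rw [h] at this
      exact absurd this (by simp)
  R_φ := fun π _ i o _ hst => by
    right
    refine ⟨hst.1, rfl, fun j hj => ?_⟩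
    simp only [swPhi, Bool.and_eq_true] at hj
    exact hj.1
  w_φ := fun π hπ i h hh => sw_wphi hq0 hq1 (hF π hπ).2 (hF π hπ).1 i h hh
  bad_succ := fun u σ i hbad hl => by
    cases u with
    | zero => exact ⟨true, trivial⟩
    | succ v =>
      by_contra hcon
      push Not at hcon
      have h1 : DT v (swF F (update σ i (false, fun _ => false))) := by
        have := hcon true
        simp only [swBad, not_not, if_true] at this
        exact this
      have h0 : DT v (swF F (update σ i (false, (σ i).2))) := by
        have := hcon false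
        simp only [swBad, not_not] at this
        exact this
      apply hbad
      refine DT.node v i _ _ _ h0 h1 (fun y hy => ?_) (fun y hy => ?_)
      · have : (fun v : I × J => val (σ v.1) (y v.1) v.2) =
            fun v => val (update σ i (false, fun _ => false) v.1) (y v.1) v.2 := by
          funext v
          by_cases hv : v.1 = i
          · rw [hv, update_self, hy]
            simp [val, hl]
          · rw [update_of_ne hv]
        unfold swF
        rw [this]
      · have : (fun v : I × J => val (σ v.1) (y v.1) v.2) =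
            fun v => val (update σ i (false, (σ i).2) v.1) (y v.1) v.2 := by
          funext v
          by_cases hv : v.1 = i
          · rw [hv, update_self, hy]
            simp [val]
          · rw [update_of_ne hv]
        unfold swF
        rw [this]
  bad_fals := fun u σ h hbad => by
    apply hbad
    refine DT.const u _ False fun y => ?_
    constructor
    · rintro ⟨π, hπ, hev⟩
      obtain ⟨i, hi⟩ := h π hπ
      apply hi
      intro j b hj
      have h1 := hev _ hj
      simp only [val] at h1
      constructor
      · intro h2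
        by_contra hcon
        push Not at hcon
        have h3 : (σ i).1 = false := by simpa using hcon.1
        rw [h2, h3] at h1
        simp at h1
        exact hcon.2 h1
      · intro h2
        rw [h2] at h1
        simp at h1
        exact h1
    · exact False.elim
  bad_sat := fun u σ h hbad => by
    apply hbad
    obtain ⟨π, hπ, hall⟩ := h
    refine DT.const u _ True fun y => ?_
    refine ⟨fun _ => trivial, fun _ => ⟨π, hπ, ?_⟩⟩
    rintro ⟨⟨i, j⟩, b⟩ hj
    obtain ⟨hun, hst⟩ := hall i
    show val (σ i) (y i) j = b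
    have h1 := hun j b hj
    rcases hm : (σ i).2 j with _ | _
    · rw [h1.2 hm]
      simp [val, hm]
    · have hd : (σ i).1 = false := by
        by_contra hcon
        exact hst ⟨by simpa using hcon, j, b, hj, hm⟩
      rcases h1.1 hm with h2 | h2
      · rw [hd] at h2
        exact absurd h2 (by simp)
      · rw [h2]
        simp [val, hm, hd]

/-- THE SWITCHING LEMMA -/
theorem switch
    (q d : ℝ) (hq0 : 0 < q) (hq1 : q < 1) (hd0 : 0 < d) (hd1 : d ≤ 1) (t : ℕ)
    (hd : 6 * t * (q / (1 - q)) * (1 / (1 - q)) ^ t ≤ d)
    (F : List (List ((I × J) × Bool))) (hF : ∀ π ∈ F, π.length ≤ t ∧ Cons π) :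
    Pr q (fun ρ : I → Cf J => ¬ DT t (fun y => evF F (fun v => val (ρ v.1) (y v.1) v.2))) ≤
      d ^ (t + 1) := by
  have h1q : 0 < 1 - q := by linarith
  set D := swData q hq0 hq1 t F hF with hD
  have hc : D.c = q / (1 - q) * (1 / (1 - q)) ^ t := rfl
  have hc0 : 0 ≤ D.c := D.c_nonneg
  have hcd : 6 * t * D.c ≤ d := by rw [hc]; linarith [hd]
  have main : ∃ δ : ℝ, 0 ≤ δ ∧ 2 * D.c ≤ δ * d ∧ (1 + δ) ^ t ≤ 2 := by
    rcases Nat.eq_zero_or_pos t with ht | ht
    · refine ⟨2 * D.c / d, by positivity, ?_, ?_⟩
      · rw [div_mul_cancel₀ _ hd0.ne']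
      · rw [ht]; norm_num
    · have htR : (0 : ℝ) < t := by exact_mod_cast ht
      refine ⟨1 / (2 * t), by positivity, ?_, ?_⟩
      · rw [div_mul_eq_mul_div, le_div_iff₀ (by positivity)]
        nlinarith
      · calc (1 + 1 / (2 * (t : ℝ))) ^ t ≤ (Real.exp (1 / (2 * (t : ℝ)))) ^ t := by
              refine pow_le_pow_left₀ (by positivity) ?_ _
              have := Real.add_one_le_exp (1 / (2 * (t : ℝ)))
              linarith
          _ = Real.exp (1 / 2) := by
              rw [← Real.exp_nat_mul]
              congr 1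
              field_simp
          _ ≤ 2 := by
              have h2 : Real.exp (1 / 2) ^ 2 = Real.exp 1 := by
                rw [← Real.exp_nat_mul]
                congr 1
                norm_num
              have h3 := Real.exp_one_lt_d9
              have h4 := Real.exp_pos (1 / 2 : ℝ)
              nlinarith
  obtain ⟨δ, hδ, h2c, hpow⟩ := main
  have h := D.switching d δ hδ hd0.le h2c hpow (t + 1)
  exact h

end inst

end Pool.Agent.HDH
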